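import Mathlib
import Pool.Agent.Work.MP_41f637_al.FromBB
import Pool.Agent.Work.MP_6f5fa7_al.Mon.Final

set_option autoImplicit false

universe u v

namespace Pool.Agent.Results.MP_41f637_al.DiscriminationGap

/-- The group `G` lies in the variety of groups defined by the set `W` of laws, which are words in
the letters `x_0, x_1, x_2, …`: all values of all words of `W` in `G` are trivial. -/
def InVariety (W : Set (FreeGroup ℕ)) (G : Type u) [Group G] : Prop :=
  ∀ w ∈ W, ∀ g : ℕ → G, FreeGroup.lift g w = 1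

/-- The group word `w` in the variables `x_1, …, x_k` is a law of the variety defined by `W`: all
its values in all groups of the variety are trivial. -/
def IsLaw (W : Set (FreeGroup ℕ)) {k : ℕ} (w : FreeGroup (Fin k)) : Prop :=
  ∀ (G : Type u) [Group G], InVariety W G → ∀ g : Fin k → G, FreeGroup.lift g w = 1

/-- `a_1, …, a_r` is a free basis of the group `F` in the variety `V` defined by `W`, so that `F`
is the free group `F_r(V)` of rank `r` in `V`: the group `F` lies in `V`, and for every group `G`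
of `V` and all `g_1, …, g_r` in `G` there is exactly one homomorphism from `F` to `G` that maps
`a_i` to `g_i` for all `i`. -/
def IsFreeBasis (W : Set (FreeGroup ℕ)) {F : Type u} [Group F] {r : ℕ} (a : Fin r → F) : Prop :=
  InVariety W F ∧ ∀ (G : Type u) [Group G], InVariety W G →
    ∀ g : Fin r → G, ∃! φ : F →* G, ∀ i, φ (a i) = g i

/-- The group `G` discriminates the variety defined by `W`: for every finite set `ws` of words in
`x_1, …, x_k` none of which is a law of the variety there are `g_1, …, g_k` in `G` with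
`w(g_1, …, g_k) ≠ 1` for all `w` in `ws`. -/
def Discriminates (W : Set (FreeGroup ℕ)) (G : Type u) [Group G] : Prop :=
  ∀ (k : ℕ) (ws : Finset (FreeGroup (Fin k))), (∀ w ∈ ws, ¬ IsLaw.{u} W w) →
    ∃ g : Fin k → G, ∀ w ∈ ws, FreeGroup.lift g w ≠ 1

/-- The value of the word `w` at the constants `c_1, …, c_r` and at the values `x_1, …, x_k` of the
unknowns. -/
def evalAt {H : Type u} [Group H] {r k : ℕ} (c : Fin r → H) (x : Fin k → H)
    (w : FreeGroup (Fin r ⊕ Fin k)) : H :=
  FreeGroup.lift (Sum.elim c x) w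

/-- `F = F_r(V)` with the free basis `a_1, …, a_r` strongly discriminates the variety `V` defined
by `W`: every finite system of inequalities `w(a_1, …, a_r, x_1, …, x_k) ≠ 1` with constants in `F`
that has a solution in some `H = F_s(V)`, `s ≥ r`, with a free basis `b_1, …, b_s` whose first `r`
members play the role of `a_1, …, a_r`, has a solution in `F`. -/
def StronglyDiscriminates (W : Set (FreeGroup ℕ)) {F : Type u} [Group F] {r : ℕ}
    (a : Fin r → F) : Prop :=
  ∀ (k : ℕ) (ws : Finset (FreeGroup (Fin r ⊕ Fin k))) (s : ℕ) (hs : r ≤ s)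
    (H : Type u) [Group H] (b : Fin s → H), IsFreeBasis W b →
    (∃ x : Fin k → H, ∀ w ∈ ws, evalAt (fun j => b (Fin.castLE hs j)) x w ≠ 1) →
    ∃ y : Fin k → F, ∀ w ∈ ws, evalAt a y w ≠ 1

/-! ### Proof -/

open Pool.Agent.Work.MP_6f5fa7_al Pool.Agent.Work.MP_6f5fa7_al.OneWord
open Pool.Agent.Work.MP_41f637_al.FromBB
open scoped commutatorElement

theorem lift_VS {W : Set (FreeGroup ℕ)} {G : Type u} [Group G] (hG : InVariety W G) {k : ℕ}
    (g : Fin k → G) : ∀ w ∈ VS W k, FreeGroup.lift g w = 1 := by
  intro w hw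
  have h1 : VS W k ≤ (FreeGroup.lift g).ker := by
    apply Subgroup.normalClosure_le_normal
    rintro _ ⟨u, hu, φ, rfl⟩
    rw [SetLike.mem_coe, MonoidHom.mem_ker]
    have h2 := hG u hu (fun i => FreeGroup.lift g (φ (FreeGroup.of i)))
    have h3 : (FreeGroup.lift g).comp φ =
        FreeGroup.lift (fun i => FreeGroup.lift g (φ (FreeGroup.of i))) := by
      apply FreeGroup.ext_hom
      intro i
      simp
    rw [← h3] at h2
    exact h2
  exact h1 hw

theorem inVariety_quot (W : Set (FreeGroup ℕ)) (k : ℕ) :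
    InVariety W (FreeGroup (Fin k) ⧸ VS W k) := by
  intro w hw g
  choose g' hg' using fun i => QuotientGroup.mk_surjective (g i)
  have h1 : FreeGroup.lift g w = QuotientGroup.mk (FreeGroup.lift g' w) := by
    have h2 : FreeGroup.lift g = (QuotientGroup.mk' (VS W k)).comp (FreeGroup.lift g') := by
      apply FreeGroup.ext_hom
      intro i
      simp [hg']
    rw [h2]; rfl
  rw [h1, QuotientGroup.eq_one_iff]
  exact Subgroup.subset_normalClosure ⟨w, hw, FreeGroup.lift g', rfl⟩

theorem InVariety.of_inj {W : Set (FreeGroup ℕ)} {G : Type u} {H : Type v} [Group G] [Group H]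
    (f : G →* H) (hf : Function.Injective f) (hH : InVariety W H) : InVariety W G := by
  intro w hw g
  apply hf
  rw [map_one, ← hH w hw (fun i => f (g i))]
  have h : f.comp (FreeGroup.lift g) = FreeGroup.lift (fun i => f (g i)) := by
    apply FreeGroup.ext_hom
    intro i
    simp
  exact DFunLike.congr_fun h w

/-- The basis of the standard free group. -/
def aQ (W : Set (FreeGroup ℕ)) (k : ℕ) (i : Fin k) : ULift.{u} (FreeGroup (Fin k) ⧸ VS W k) :=
  ULift.up (QuotientGroup.mk (FreeGroup.of i))

theorem isFree_aQ (W : Set (FreeGroup ℕ)) (k : ℕ) : IsFreeBasis.{u} W (aQ.{u} W k) := by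
  refine ⟨InVariety.of_inj (MulEquiv.ulift : ULift.{u} (FreeGroup (Fin k) ⧸ VS W k) ≃*
    (FreeGroup (Fin k) ⧸ VS W k)).toMonoidHom MulEquiv.ulift.injective (inVariety_quot W k), ?_⟩
  intro G _ hG g
  refine ⟨(QuotientGroup.lift (VS W k) (FreeGroup.lift g) (lift_VS hG g)).comp
    (MulEquiv.ulift : ULift.{u} (FreeGroup (Fin k) ⧸ VS W k) ≃* _).toMonoidHom, ?_, ?_⟩
  · intro i
    exact FreeGroup.lift_apply_of ..
  · intro ψ hψ
    have h1 : (ψ.comp (MulEquiv.ulift : ULift.{u} (FreeGroup (Fin k) ⧸ VS W k) ≃* _).symm.toMonoidHom).comp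
        (QuotientGroup.mk' (VS W k)) = FreeGroup.lift g := by
      apply FreeGroup.ext_hom
      intro i
      rw [FreeGroup.lift_apply_of, ← hψ i]
      rfl
    ext x
    obtain ⟨x⟩ := x
    obtain ⟨w, rfl⟩ := QuotientGroup.mk_surjective x
    exact DFunLike.congr_fun h1 w

theorem exists_equiv {W : Set (FreeGroup ℕ)} {F : Type u} [Group F] {r : ℕ} {a : Fin r → F}
    (ha : IsFreeBasis W a) : ∃ e : F ≃* (FreeGroup (Fin r) ⧸ VS W r),
      ∀ i, e (a i) = QuotientGroup.mk (FreeGroup.of i) := by
  have hQ := isFree_aQ.{u} W r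
  obtain ⟨φ, hφ, -⟩ := ha.2 _ hQ.1 (aQ.{u} W r)
  obtain ⟨ψ, hψ, -⟩ := hQ.2 _ ha.1 a
  have h1 : ψ.comp φ = MonoidHom.id F :=
    (ha.2 F ha.1 a).unique (fun i => by simp [hφ, hψ]) (fun i => by simp)
  have h2 : φ.comp ψ = MonoidHom.id _ :=
    (hQ.2 _ hQ.1 (aQ.{u} W r)).unique (fun i => by simp [hφ, hψ]) (fun i => by simp)
  let e : F ≃* ULift.{u} (FreeGroup (Fin r) ⧸ VS W r) :=
    MonoidHom.toMulEquiv φ ψ h1 h2
  refine ⟨e.trans MulEquiv.ulift, ?_⟩
  intro i
  have h3 : e (a i) = aQ.{u} W r i := hφ i
  rw [MulEquiv.trans_apply, h3]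
  rfl

theorem lift_comp_hom {α : Type} {G : Type u} {H : Type v} [Group G] [Group H] (f : G →* H)
    (g : α → G) (w : FreeGroup α) : f (FreeGroup.lift g w) = FreeGroup.lift (fun i => f (g i)) w := by
  have h : f.comp (FreeGroup.lift g) = FreeGroup.lift (fun i => f (g i)) := by
    apply FreeGroup.ext_hom
    intro i
    simp
  exact DFunLike.congr_fun h w

/-- `x` if `x` commutes with all members of the list, otherwise `1`. -/
def qL (Φ : FreeGroup (Fin 2)) {G : Type u} [Group G] (x : G) (l : List G) : G :=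
  l.foldr (fun y z => kap Φ y 1 z) x

theorem qL_hom (Φ : FreeGroup (Fin 2)) {G : Type u} {H : Type v} [Group G] [Group H] (f : G →* H)
    (x : G) (l : List G) : f (qL Φ x l) = qL Φ (f x) (l.map f) := by
  induction l with
  | nil => rfl
  | cons y l ih =>
    show f (kap Φ y 1 (qL Φ x l)) = kap Φ (f y) 1 (qL Φ (f x) (l.map f))
    rw [kap_hom, map_one, ih]

section star

variable {T : Type} [Group T] {Φ : FreeGroup (Fin 2)}
  (hΦ : Φ ∈ commutator (FreeGroup (Fin 2)))

include hΦ in
theorem qL_comm {G : Type u} [Group G] (x : G) (l : List G) (h : ∀ y ∈ l, y * x = x * y) :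
    qL Φ x l = x := by
  induction l with
  | nil => rfl
  | cons y l ih =>
    show kap Φ y 1 (qL Φ x l) = x
    rw [ih (fun z hz => h z (List.mem_cons_of_mem _ hz))]
    exact kap_comm hΦ y 1 x (h y List.mem_cons_self) (by simp)

include hΦ in
theorem qL_star (hS : Star Φ T) (x : T) (l : List T) :
    qL Φ x l = 1 ∨ (qL Φ x l = x ∧ ∀ y ∈ l, y * x = x * y) := by
  induction l with
  | nil => exact Or.inr ⟨rfl, by simp⟩
  | cons y l ih =>
    have h0 : qL Φ x (y :: l) = kap Φ y 1 (qL Φ x l) := rfl
    rcases ih with ih | ⟨ih, hc⟩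
    · left
      rw [h0, ih, kap_one]
    · by_cases h1 : y * x = x * y
      · right
        refine ⟨?_, ?_⟩
        · rw [h0, ih]
          exact kap_comm hΦ y 1 x h1 (by simp)
        · intro z hz
          rcases List.mem_cons.1 hz with rfl | hz
          · exact h1
          · exact hc z hz
      · left
        rw [h0, ih]
        exact kap_star1 hΦ hS y x h1

end star

/-- The inequality with one unknown. -/
def word (Φ : FreeGroup (Fin 2)) {r : ℕ} (i0 : Fin r) : FreeGroup (Fin r ⊕ Fin 1) :=
  ⁅qL Φ (FreeGroup.of (Sum.inl i0) : FreeGroup (Fin r ⊕ Fin 1))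
      (List.ofFn fun j : Fin r => FreeGroup.of (Sum.inl j)),
    (FreeGroup.of (Sum.inr 0) : FreeGroup (Fin r ⊕ Fin 1))⁆

theorem word_eval (Φ : FreeGroup (Fin 2)) {r : ℕ} (i0 : Fin r) {G : Type u} [Group G]
    (c : Fin r → G) (x : Fin 1 → G) :
    evalAt c x (word Φ i0) = ⁅qL Φ (c i0) (List.ofFn c), x 0⁆ := by
  unfold evalAt word
  rw [map_commutatorElement, qL_hom, List.map_ofFn]
  simp only [FreeGroup.lift_apply_of, Sum.elim_inl, Sum.elim_inr, Function.comp_def]

theorem evalAt_hom {G : Type u} {H : Type v} [Group G] [Group H] (f : G →* H) {r k : ℕ}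
    (c : Fin r → G) (x : Fin k → G) (w : FreeGroup (Fin r ⊕ Fin k)) :
    f (evalAt c x w) = evalAt (fun i => f (c i)) (fun i => f (x i)) w := by
  unfold evalAt
  rw [lift_comp_hom]
  congr 2
  ext i
  rcases i with i | i <;> rfl

/-- **Full answer to Q1.** There is a non-trivial variety `V` of groups (defined by the set `W` of
laws, of prime exponent `p`) such that for every `r ≥ 3` the free group `F_r(V)` discriminates `V`
but does not strongly discriminate `V`; there is even a single inequality with one unknown and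
constants from `F_r(V)` that is solvable in `F_s(V)` for every `s > r` but not in `F_r(V)`. -/
theorem result : ∃ (W : Set (FreeGroup ℕ)) (p : ℕ), p.Prime ∧
    (∃ (G : Type u) (_ : Group G), Nontrivial G ∧ InVariety W G) ∧
    (∀ (G : Type u) [Group G], InVariety W G → ∀ x : G, x ^ p = 1) ∧
    (∀ r : ℕ, ∃ (F : Type u) (_ : Group F) (a : Fin r → F), IsFreeBasis W a) ∧
    ∀ r : ℕ, 3 ≤ r → ∀ (F : Type u) [Group F] (a : Fin r → F), IsFreeBasis W a →
      Discriminates W F ∧ ¬ StronglyDiscriminates W a ∧
      ∃ w : FreeGroup (Fin r ⊕ Fin 1), (∀ y : Fin 1 → F, evalAt a y w = 1) ∧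
        ∀ (s : ℕ) (hs : r < s) (H : Type u) [Group H] (b : Fin s → H), IsFreeBasis W b →
          ∃ x : Fin 1 → H, evalAt (fun j => b (Fin.castLE hs.le j)) x w ≠ 1 := by
  classical
  obtain ⟨p, T, _, Φ, hp, hexp, ⟨a0, b0, hcl, hab⟩, hΦ, hS⟩ := BBox.data Mon.bb_holds
  have haux := S01311_aux hΦ hS hp hexp a0 b0 hcl hab
  have hT : InVariety (laws T) T := fun w hw g => hw g
  have hT' : InVariety (laws T) (ULift.{u} T) :=
    InVariety.of_inj (MulEquiv.ulift : ULift.{u} T ≃* T).toMonoidHom MulEquiv.ulift.injective hT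
  have hpow : (FreeGroup.of 0 ^ p : FreeGroup ℕ) ∈ laws T := by
    intro g
    rw [map_pow, FreeGroup.lift_apply_of]
    exact hexp _
  refine ⟨laws T, p, hp, ⟨ULift.{u} T, inferInstance, ⟨ULift.up a0, 1, ?_⟩, hT'⟩, ?_,
    fun r => ⟨_, inferInstance, _, isFree_aQ.{u} (laws T) r⟩, ?_⟩
  · intro h
    apply hab
    have h1 : a0 = 1 := congrArg ULift.down h
    rw [h1]; simp
  · intro G _ hG x
    have := hG _ hpow (fun _ => x)
    rwa [map_pow, FreeGroup.lift_apply_of] at this
  intro r hr F _ a ha
  -- the single inequality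
  have hex : ∃ w : FreeGroup (Fin r ⊕ Fin 1), (∀ y : Fin 1 → F, evalAt a y w = 1) ∧
        ∀ (s : ℕ) (hs : r < s) (H : Type u) [Group H] (b : Fin s → H), IsFreeBasis (laws T) b →
          ∃ x : Fin 1 → H, evalAt (fun j => b (Fin.castLE hs.le j)) x w ≠ 1 := by
    let i0 : Fin r := ⟨0, by omega⟩
    refine ⟨word Φ i0, ?_, ?_⟩
    · intro y
      obtain ⟨e, he⟩ := exists_equiv ha
      apply e.injective
      rw [map_one]
      have h1 := evalAt_hom e.toMonoidHom a y (word Φ i0)
      have h2 : e (evalAt a y (word Φ i0)) =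
          evalAt (fun i => e (a i)) (fun i => e (y i)) (word Φ i0) := h1
      rw [h2]
      apply eq_one_of
      intro f
      rw [evalAt_hom, word_eval, commutatorElement_eq_one_iff_commute]
      rcases qL_star hΦ hS (f (e (a i0))) (List.ofFn fun i => f (e (a i))) with h | ⟨h, hc⟩
      · rw [h]
        exact Commute.one_left _
      · rw [h]
        have hall : ∀ u : FreeGroup (Fin r) ⧸ VS (laws T) r, Commute (f (e (a i0))) (f u) := by
          intro u
          obtain ⟨u, rfl⟩ := QuotientGroup.mk_surjective u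
          induction u using FreeGroup.induction_on with
          | C1 =>
            have : (QuotientGroup.mk (1 : FreeGroup (Fin r)) : FreeGroup (Fin r) ⧸ VS (laws T) r) =
              1 := rfl
            rw [this, map_one]
            exact Commute.one_right _
          | of i =>
            have h3 := hc (f (e (a i))) (List.mem_ofFn.2 ⟨i, rfl⟩)
            rw [he i] at h3
            exact h3.symm
          | inv_of i hi =>
            rw [QuotientGroup.mk_inv, map_inv]
            exact hi.inv_right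
          | mul u v hu hv =>
            rw [QuotientGroup.mk_mul, map_mul]
            exact hu.mul_right hv
        exact hall (e (y 0))
    · intro s hs H _ b hb
      refine ⟨fun _ => b ⟨r, hs⟩, ?_⟩
      intro hcon
      obtain ⟨θ, hθ, -⟩ := hb.2 _ hT' (fun i => if i.val = 0 then ULift.up a0 else
        if i.val = r then ULift.up b0 else 1)
      have h1 := congrArg θ hcon
      rw [evalAt_hom, word_eval, map_one, commutatorElement_eq_one_iff_commute] at h1
      have h2 : ∀ j : Fin r, θ (b (Fin.castLE hs.le j)) = if j.val = 0 then ULift.up a0 else 1 := by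
        intro j
        rw [hθ]
        have : j.val ≠ r := by have := j.2; omega
        simp [this]
      have h3 : θ (b (Fin.castLE hs.le i0)) = ULift.up a0 := by rw [h2]; simp [i0]
      have h4 : θ (b ⟨r, hs⟩) = ULift.up b0 := by
        rw [hθ]
        have : r ≠ 0 := by omega
        simp [this]
      rw [h4, h3, qL_comm hΦ] at h1
      · apply hab
        exact congrArg ULift.down h1
      · intro y hy
        obtain ⟨j, rfl⟩ := List.mem_ofFn.1 hy
        rw [h2]
        split_ifs <;> simp
  refine ⟨?_, ?_, hex⟩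
  · -- discrimination
    intro k ws hws
    obtain ⟨f, hf⟩ := haux.2.1 k ws (fun w hw hmem => hws w hw
      (fun G _ hG g => lift_VS hG g w hmem))
    obtain ⟨e, he⟩ := exists_equiv ha
    -- the inclusion of the free group of rank `3` and its retraction
    let ι : (FreeGroup (Fin 3) ⧸ VS (laws T) 3) →* F :=
      QuotientGroup.lift (VS (laws T) 3) (FreeGroup.lift fun i => a (Fin.castLE hr i))
        (lift_VS ha.1 _)
    let ρ : (FreeGroup (Fin r) ⧸ VS (laws T) r) →* (FreeGroup (Fin 3) ⧸ VS (laws T) 3) :=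
      QuotientGroup.lift (VS (laws T) r) (FreeGroup.lift fun j => if h : j.val < 3 then
        QuotientGroup.mk (FreeGroup.of ⟨j.val, h⟩) else 1) (lift_VS (inVariety_quot _ _) _)
    have hρι : ∀ x, ρ (e (ι x)) = x := by
      intro x
      obtain ⟨w, rfl⟩ := QuotientGroup.mk_surjective x
      have h1 : ((ρ.comp e.toMonoidHom).comp ι).comp (QuotientGroup.mk' (VS (laws T) 3)) =
          QuotientGroup.mk' (VS (laws T) 3) := by
        apply FreeGroup.ext_hom
        intro i
        have h2 : ι (QuotientGroup.mk (FreeGroup.of i)) = a (Fin.castLE hr i) :=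
          FreeGroup.lift_apply_of ..
        have h3 : ρ (QuotientGroup.mk (FreeGroup.of (Fin.castLE hr i))) =
            QuotientGroup.mk (FreeGroup.of i) := by
          have h4 : ρ (QuotientGroup.mk (FreeGroup.of (Fin.castLE hr i))) =
              (if h : (Fin.castLE hr i).val < 3 then
                (QuotientGroup.mk (FreeGroup.of ⟨(Fin.castLE hr i).val, h⟩) :
                  FreeGroup (Fin 3) ⧸ VS (laws T) 3) else 1) :=
            FreeGroup.lift_apply_of ..
          rw [h4, dif_pos (show (Fin.castLE hr i).val < 3 from i.2)]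
          rfl
        show ρ (e (ι (QuotientGroup.mk (FreeGroup.of i)))) = QuotientGroup.mk (FreeGroup.of i)
        rw [h2, he, h3]
      exact DFunLike.congr_fun h1 w
    refine ⟨fun i => ι (f i), ?_⟩
    intro w hw hcon
    apply hf w hw
    rw [← lift_comp_hom] at hcon
    rw [← hρι (FreeGroup.lift f w), hcon, map_one, map_one]
  · -- strong discrimination fails
    intro hstr
    obtain ⟨w, hw1, hw2⟩ := hex
    have hfree := isFree_aQ.{u} (laws T) (r + 1)
    obtain ⟨x, hx⟩ := hw2 (r + 1) (Nat.lt_succ_self r)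
      (ULift.{u} (FreeGroup (Fin (r + 1)) ⧸ VS (laws T) (r + 1))) _ hfree
    obtain ⟨y, hy⟩ := hstr 1 {w} (r + 1) (Nat.le_succ r)
      (ULift.{u} (FreeGroup (Fin (r + 1)) ⧸ VS (laws T) (r + 1))) _ hfree ⟨x, by
      intro w' hw'
      rw [Finset.mem_singleton] at hw'
      subst hw'
      exact hx⟩
    exact hy w (Finset.mem_singleton_self w) (hw1 y)

end Pool.Agent.Results.MP_41f637_al.DiscriminationGap
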