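import Pool.Agent.Work.MP_41f637_al.ZarEN
import Pool.Agent.Work.MP_41f637_al.ZarLin
import Pool.Agent.Work.MP_41f637_al.ZarMet
import Pool.Agent.Work.MP_41f637_al.Rel

/-!
# MP_41f637_al: varieties generated by linear groups

For a variety with laws `W`, write `F_s` for the relatively free group of rank `s`.
If the variety is generated by a group `L` which is linear over a commutative ring (for example by a
metabelian group), or more generally by a group `L` whose ultrapower over `ℕ` is equationally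
Noetherian, then discrimination by `F_r` implies strong discrimination by `F_r`.
-/

set_option autoImplicit false

namespace Pool.Agent.Results.MP_41f637_al.LinearVarieties

open Pool.Agent.Work.MP_41f637_al Pool.Agent.Work.MP_41f637_al.Lin

/-- The case of a generating group with good ultrapower. -/
theorem core_good (W : Set (FreeGroup ℕ)) (r : ℕ) (L : Type) [Group L] (hgood : Good (UP L))
    (hgen : ∀ (s : ℕ) (w : FreeGroup (Fin s)), w ∈ Verb W s ↔
      ∀ f : Fin s → L, FreeGroup.lift f w = 1)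
    (hdis : ∀ (s : ℕ) (ws : Finset (FreeGroup (Fin s))), (∀ w ∈ ws, w ∉ Verb W s) →
      ∃ f : Fin s → (FreeGroup (Fin r) ⧸ Verb W r), ∀ w ∈ ws, FreeGroup.lift f w ≠ 1)
    (k : ℕ) (ws : Finset (FreeGroup (Fin r ⊕ Fin k))) (s : ℕ) (hs : r ≤ s)
    (hx : ∃ x : Fin k → (FreeGroup (Fin s) ⧸ Verb W s), ∀ w ∈ ws, FreeGroup.lift
      (Sum.elim (fun j : Fin r => (QuotientGroup.mk (FreeGroup.of (Fin.castLE hs j)) :
        FreeGroup (Fin s) ⧸ Verb W s)) x) w ≠ 1) :
    ∃ y : Fin k → (FreeGroup (Fin r) ⧸ Verb W r), ∀ w ∈ ws, FreeGroup.lift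
      (Sum.elim (fun j : Fin r => (QuotientGroup.mk (FreeGroup.of j) :
        FreeGroup (Fin r) ⧸ Verb W r)) y) w ≠ 1 := by
  classical
  -- evaluation in the ultrapower
  have hev : ∀ (σ : Type) (y : σ → ℕ → L) (w : FreeGroup σ),
      FreeGroup.lift (pt y) w = ((fun i => FreeGroup.lift (fun t => y t i) w : ℕ → L) : UP L) := by
    intro σ y w
    induction w using FreeGroup.induction_on with
    | C1 => simp only [map_one]; rfl
    | of i => simp only [FreeGroup.lift_apply_of]; rfl
    | inv_of i h => simp only [map_inv, FreeGroup.lift_apply_of]; rfl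
    | mul u v hu hv => simp only [map_mul]; rw [hu, hv]; rfl
  have hlaw : ∀ (s : ℕ) (w : FreeGroup (Fin s)), w ∈ Verb W s ↔
      ∀ g : Fin s → UP L, FreeGroup.lift g w = 1 := by
    intro s w
    rw [hgen s w]
    constructor
    · intro h g
      obtain ⟨y, rfl⟩ := pt_surj g
      rw [hev]
      have : (fun i => FreeGroup.lift (fun t => y t i) w : ℕ → L) = 1 := by
        funext i
        exact h _
      rw [this]
      rfl
    · intro h f
      have h1 := h (pt fun t _ => f t)
      rw [hev] at h1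
      have h2 : ∀ᶠ i in (UF : Filter ℕ), FreeGroup.lift (fun t => f t) w = 1 :=
        Filter.Germ.coe_eq.mp h1
      exact h2.exists.choose_spec
  have hE1 : ∀ (s : ℕ) (y : Fin s → UP L), ∃ θ : (FreeGroup (Fin s) ⧸ Verb W s) →* UP L,
      ∀ w, θ (QuotientGroup.mk w) = FreeGroup.lift y w := by
    intro s y
    refine ⟨QuotientGroup.lift (Verb W s) (FreeGroup.lift y) (fun w hw => ?_), fun w => rfl⟩
    exact (hlaw s w).mp hw y
  have hE2 : ∀ (s : ℕ) (e : FreeGroup (Fin s) ⧸ Verb W s), e ≠ 1 →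
      ∃ θ : (FreeGroup (Fin s) ⧸ Verb W s) →* UP L, θ e ≠ 1 := by
    intro s e he
    obtain ⟨w, rfl⟩ := QuotientGroup.mk_surjective e
    have hw : w ∉ Verb W s := fun h => he ((QuotientGroup.eq_one_iff w).mpr h)
    rw [hlaw] at hw
    push Not at hw
    obtain ⟨g, hg⟩ := hw
    obtain ⟨θ, hθ⟩ := hE1 s g
    exact ⟨θ, by rw [hθ]; exact hg⟩
  obtain ⟨x, hx⟩ := hx
  refine main_abs hgood (fun j : Fin r => (QuotientGroup.mk (FreeGroup.of j) :
    FreeGroup (Fin r) ⧸ Verb W r)) (closure_gen W r) ?_ (hE2 r) ?_ k ws ?_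
  · intro y
    obtain ⟨θ, hθ⟩ := hE1 r y
    refine ⟨θ, fun j => ?_⟩
    rw [hθ, FreeGroup.lift_apply_of]
  · intro t ws' hws'
    refine hdis t ws' fun w hw hwV => ?_
    obtain ⟨g, hg⟩ := hws' w hw
    exact hg ((hlaw t w).mp hwV g)
  · intro w hw
    obtain ⟨θ, hθ⟩ := hE2 s _ (hx w hw)
    rw [hom_lift] at hθ
    exact ⟨_, hθ⟩

/-- The relatively free group of a variety generated by a linear group is linear. -/
theorem rel_linear (W : Set (FreeGroup ℕ)) (r : ℕ) (L : Type) [Group L] (R : Type) [CommRing R]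
    (d : ℕ) (φ : L →* GL (Fin d) R) (hφ : Function.Injective φ)
    (hgen : ∀ (w : FreeGroup (Fin r)), w ∈ Verb W r ↔ ∀ f : Fin r → L, FreeGroup.lift f w = 1) :
    ∃ (S : Type) (_ : CommRing S) (ψ : (FreeGroup (Fin r) ⧸ Verb W r) →* GL (Fin d) S),
      Function.Injective ψ := by
  classical
  let θ : (Fin r → L) → (FreeGroup (Fin r) ⧸ Verb W r) →* L := fun y =>
    QuotientGroup.lift (Verb W r) (FreeGroup.lift y) (fun w hw => (hgen w).mp hw y)
  have hθ : ∀ y w, θ y (QuotientGroup.mk w) = FreeGroup.lift y w := fun y w => rfl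
  let Y : (FreeGroup (Fin r) ⧸ Verb W r) →* Matrix (Fin d) (Fin d) ((Fin r → L) → R) :=
    { toFun := fun e => Matrix.of fun p q y =>
        ((φ (θ y e) : GL (Fin d) R) : Matrix (Fin d) (Fin d) R) p q
      map_one' := by
        ext p q y
        simp only [map_one, Units.val_one, Matrix.one_apply, Matrix.of_apply]
        split_ifs <;> simp
      map_mul' := by
        intro e e'
        ext p q y
        simp only [map_mul, Units.val_mul, Matrix.mul_apply, Matrix.of_apply, Finset.sum_apply,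
          Pi.mul_apply] }
  refine ⟨(Fin r → L) → R, inferInstance, Y.toHomUnits, ?_⟩
  rw [injective_iff_map_eq_one]
  intro e he
  obtain ⟨w, rfl⟩ := QuotientGroup.mk_surjective e
  rw [QuotientGroup.eq_one_iff, hgen]
  intro y
  have h1 : Y (QuotientGroup.mk w) = 1 := by
    have := congrArg (fun u : GL (Fin d) ((Fin r → L) → R) =>
      (u : Matrix (Fin d) (Fin d) ((Fin r → L) → R))) he
    exact this
  rw [← hθ]
  apply (injective_iff_map_eq_one φ).mp hφ
  apply Units.ext
  ext p q
  have h2 : (φ (θ y (QuotientGroup.mk w)) : Matrix (Fin d) (Fin d) R) p q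
      = (1 : Matrix (Fin d) (Fin d) ((Fin r → L) → R)) p q y :=
    congrFun (congrArg (fun M : Matrix (Fin d) (Fin d) ((Fin r → L) → R) => M p q) h1) y
  rw [h2, Units.val_one, Matrix.one_apply, Matrix.one_apply]
  split_ifs <;> simp

/-- If a variety of groups is generated by a group `L` which is linear over a commutative ring, or
metabelian, or whose ultrapower over `ℕ` is equationally Noetherian, and if `F_r` discriminates the
variety, then `F_r` strongly discriminates the variety. -/
theorem result (W : Set (FreeGroup ℕ)) (r : ℕ) (L : Type) [Group L]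
    (hL : (∃ (R : Type) (_ : CommRing R) (d : ℕ) (φ : L →* GL (Fin d) R), Function.Injective φ) ∨
      (∀ x ∈ commutator L, ∀ y ∈ commutator L, x * y = y * x) ∨
      EqNoetherian ((Filter.hyperfilter ℕ : Filter ℕ).Germ L))
    (hgen : ∀ (s : ℕ) (w : FreeGroup (Fin s)), w ∈ Subgroup.normalClosure
        {g : FreeGroup (Fin s) | ∃ u ∈ W, ∃ φ : FreeGroup ℕ →* FreeGroup (Fin s), φ u = g} ↔
      ∀ f : Fin s → L, FreeGroup.lift f w = 1)
    (hdis : ∀ (s : ℕ) (ws : Finset (FreeGroup (Fin s))),
      (∀ w ∈ ws, w ∉ Subgroup.normalClosure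
        {g : FreeGroup (Fin s) | ∃ u ∈ W, ∃ φ : FreeGroup ℕ →* FreeGroup (Fin s), φ u = g}) →
      ∃ f : Fin s → (FreeGroup (Fin r) ⧸ Subgroup.normalClosure
        {g : FreeGroup (Fin r) | ∃ u ∈ W, ∃ φ : FreeGroup ℕ →* FreeGroup (Fin r), φ u = g}),
        ∀ w ∈ ws, FreeGroup.lift f w ≠ 1) :
    ∀ (k : ℕ) (ws : Finset (FreeGroup (Fin r ⊕ Fin k))) (s : ℕ) (hs : r ≤ s),
      (∃ x : Fin k → (FreeGroup (Fin s) ⧸ Subgroup.normalClosure
          {g : FreeGroup (Fin s) | ∃ u ∈ W, ∃ φ : FreeGroup ℕ →* FreeGroup (Fin s), φ u = g}),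
        ∀ w ∈ ws, FreeGroup.lift
          (Sum.elim
            (fun j : Fin r => (QuotientGroup.mk (FreeGroup.of (Fin.castLE hs j)) :
              FreeGroup (Fin s) ⧸ Subgroup.normalClosure
                {g : FreeGroup (Fin s) | ∃ u ∈ W, ∃ φ : FreeGroup ℕ →* FreeGroup (Fin s), φ u = g}))
            x) w ≠ 1) →
      ∃ y : Fin k → (FreeGroup (Fin r) ⧸ Subgroup.normalClosure
          {g : FreeGroup (Fin r) | ∃ u ∈ W, ∃ φ : FreeGroup ℕ →* FreeGroup (Fin r), φ u = g}),
        ∀ w ∈ ws, FreeGroup.lift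
          (Sum.elim
            (fun j : Fin r => (QuotientGroup.mk (FreeGroup.of j) :
              FreeGroup (Fin r) ⧸ Subgroup.normalClosure
                {g : FreeGroup (Fin r) | ∃ u ∈ W, ∃ φ : FreeGroup ℕ →* FreeGroup (Fin r), φ u = g}))
            y) w ≠ 1 := by
  classical
  have hlin : (∃ (R : Type) (_ : CommRing R) (d : ℕ) (φ : L →* GL (Fin d) R),
      Function.Injective φ) ∨ EqNoetherian ((Filter.hyperfilter ℕ : Filter ℕ).Germ L) := by
    rcases hL with h | h | h
    · exact Or.inl h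
    · left
      obtain ⟨R, hR, φ, hφ⟩ := metabelian_linear h
      exact ⟨R, hR, 2, φ, hφ⟩
    · exact Or.inr h
  intro k ws s hs hx
  rcases hlin with ⟨R, _, d, φ, hφ⟩ | h
  · obtain ⟨S, _, ψ, hψ⟩ := rel_linear W r L R d φ hφ (hgen r)
    have hgood : Good (UP (FreeGroup (Fin r) ⧸ Verb W r)) :=
      good_of_linear _ (closure_gen W r) ψ hψ
    refine core_good W r (FreeGroup (Fin r) ⧸ Verb W r) hgood ?_ hdis k ws s hs hx
    intro t w
    constructor
    · intro hw f
      exact lift_eq_one W t r f w hw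
    · intro hw
      by_contra hcon
      obtain ⟨f, hf⟩ := hdis t {w} (by
        intro w' hw'
        rw [Finset.mem_singleton] at hw'
        rw [hw']
        exact hcon)
      exact hf w (Finset.mem_singleton_self w) (hw f)
  · exact core_good W r L (good_of_eqNoetherian h) hgen hdis k ws s hs hx

end Pool.Agent.Results.MP_41f637_al.LinearVarieties
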