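import Pool.Agent.Work.MP_41f637_al.SI

set_option autoImplicit false

namespace Pool.Agent.Results.MP_41f637_al.PerfectQuotients

/-- The verbal subgroup of the free group of rank `s` given by the set of laws `W`. -/
abbrev Verb (W : Set (FreeGroup ℕ)) (s : ℕ) : Subgroup (FreeGroup (Fin s)) :=
  Subgroup.normalClosure
    {g : FreeGroup (Fin s) | ∃ u ∈ W, ∃ φ : FreeGroup ℕ →* FreeGroup (Fin s), φ u = g}

/-- `F_s(V)`: the relatively free group of rank `s` of the variety `V` with laws `W`. -/
abbrev RelFree (W : Set (FreeGroup ℕ)) (s : ℕ) : Type := FreeGroup (Fin s) ⧸ Verb W s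

/-- `F_r(V)` discriminates `V` (as in the frozen statement). -/
def Discriminates (W : Set (FreeGroup ℕ)) (r : ℕ) : Prop :=
  ∀ (s : ℕ) (ws : Finset (FreeGroup (Fin s))), (∀ w ∈ ws, w ∉ Verb W s) →
    ∃ f : Fin s → RelFree W r, ∀ w ∈ ws, FreeGroup.lift f w ≠ 1

/-- `F_r(V)` strongly discriminates `V` (as in the frozen statement). -/
def StronglyDiscriminates (W : Set (FreeGroup ℕ)) (r : ℕ) : Prop :=
  ∀ (k : ℕ) (ws : Finset (FreeGroup (Fin r ⊕ Fin k))) (s : ℕ) (hs : r ≤ s),
    (∃ x : Fin k → RelFree W s,
      ∀ w ∈ ws, FreeGroup.lift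
        (Sum.elim
          (fun j : Fin r => (QuotientGroup.mk (FreeGroup.of (Fin.castLE hs j)) : RelFree W s))
          x) w ≠ 1) →
    ∃ y : Fin k → RelFree W r,
      ∀ w ∈ ws, FreeGroup.lift
        (Sum.elim
          (fun j : Fin r => (QuotientGroup.mk (FreeGroup.of j) : RelFree W r))
          y) w ≠ 1

/-- `F_r(V)` is virtually residually a finite nilpotent group all of whose prime divisors divide
`M`: some subgroup of finite index has this residual property. -/
def VirtResNilpotent (W : Set (FreeGroup ℕ)) (r M : ℕ) : Prop :=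
  ∃ H : Subgroup (RelFree W r), H.FiniteIndex ∧ ∀ g : H, g ≠ 1 →
    ∃ (Q : Type) (_ : Group Q) (_ : Finite Q), Group.IsNilpotent Q ∧
      (∀ p : ℕ, p.Prime → p ∣ Nat.card Q → p ∣ M) ∧ ∃ φ : H →* Q, φ g ≠ 1

/-- `F_r(V)` is virtually residually of finite exponent prime to `M`. -/
def VirtResExponent (W : Set (FreeGroup ℕ)) (r M : ℕ) : Prop :=
  ∃ H : Subgroup (RelFree W r), H.FiniteIndex ∧ ∀ g : H, g ≠ 1 →
    ∃ (P : Type) (_ : Group P) (e : ℕ), 0 < e ∧ e.Coprime M ∧ (∀ x : P, x ^ e = 1) ∧
      ∃ φ : H →* P, φ g ≠ 1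

/-- The quotients `X = F_r(V) / K` with `X = [X, X] X ^ M`, that is, the quotients of `F_r(V)`
which have no quotient of prime order dividing `M` (for `M = 0`: the perfect quotients),
generate `V`: for any non-law of `V` there are such an `X` and a tuple in `X` at which
the word is non-trivial. -/
def PerfectQuotientsGenerate (W : Set (FreeGroup ℕ)) (r M : ℕ) : Prop :=
  ∀ (s : ℕ) (w : FreeGroup (Fin s)), w ∉ Verb W s →
    ∃ K : Subgroup (RelFree W r), K.Normal ∧
      K ⊔ commutator (RelFree W r) ⊔
        Subgroup.closure (Set.range fun x : RelFree W r => x ^ M) = ⊤ ∧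
      ∃ f : Fin s → RelFree W r, FreeGroup.lift f w ∉ K

/-- Let `V` be a variety (laws `W`) which is discriminated by `F_r(V)`, and suppose that `F_r(V)`
is virtually residually a finite nilpotent group all of whose prime divisors divide `M`.

(i) If the quotients of `F_r(V)` which have no quotient of prime order dividing `M` generate `V`,
then `F_r(V)` strongly discriminates `V`.

(ii) If `F_r(V)` is virtually residually of finite exponent prime to `M`, then `F_r(V)` strongly
discriminates `V`.

(For a prime `M = p` the hypothesis says: virtually residually a finite `p`-group.) -/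
theorem result (W : Set (FreeGroup ℕ)) (r M : ℕ) (hD : Discriminates W r)
    (hres : VirtResNilpotent W r M) :
    (PerfectQuotientsGenerate W r M → StronglyDiscriminates W r) ∧
    (VirtResExponent W r M → StronglyDiscriminates W r) :=
  ⟨fun h => Pool.Agent.Work.MP_41f637_al.TP.perfGen_main W r M hres hD h,
    fun h => Pool.Agent.Work.MP_41f637_al.TP.perfGen_main W r M hres hD
      (Pool.Agent.Work.MP_41f637_al.TP.perfDisc_of_exp W r M hD h).gen⟩

end Pool.Agent.Results.MP_41f637_al.PerfectQuotients
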