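import Pool.Agent.Work.MP_41f637_al.Strong

/-!
# MP_41f637_al: strong discrimination under a residual condition

For a variety with laws `W`, write `F_s` for the relatively free group of rank `s`.
If every nontrivial element of `F_r` stays nontrivial in finite `p`-quotients of `F_r` for
arbitrarily large primes `p`, and `F_r` generates the variety (in particular if it discriminates
it), then `F_r` strongly discriminates the variety.
-/

set_option autoImplicit false

namespace Pool.Agent.Results.MP_41f637_al.ResidualPrimes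

open Pool.Agent.Work.MP_41f637_al

/-- If every nontrivial element of the relatively free group `F_r` survives in finite `p`-quotients
for arbitrarily large primes `p`, and every non-law fails in `F_r` (`F_r` generates the variety),
then `F_r` strongly discriminates the variety. -/
theorem result (W : Set (FreeGroup ℕ)) (r : ℕ)
    (hres : ∀ g : FreeGroup (Fin r) ⧸ Subgroup.normalClosure
        {g : FreeGroup (Fin r) | ∃ u ∈ W, ∃ φ : FreeGroup ℕ →* FreeGroup (Fin r), φ u = g},
      g ≠ 1 → ∀ M : ℕ, ∃ p : ℕ, M < p ∧ p.Prime ∧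
        ∃ (P : Type) (_ : Group P) (_ : Finite P), IsPGroup p P ∧
          ∃ φ : (FreeGroup (Fin r) ⧸ Subgroup.normalClosure
            {g : FreeGroup (Fin r) | ∃ u ∈ W, ∃ φ : FreeGroup ℕ →* FreeGroup (Fin r), φ u = g})
              →* P, φ g ≠ 1)
    (hgen : ∀ (s : ℕ) (w : FreeGroup (Fin s)), w ∉ Subgroup.normalClosure
        {g : FreeGroup (Fin s) | ∃ u ∈ W, ∃ φ : FreeGroup ℕ →* FreeGroup (Fin s), φ u = g} →
      ∃ f : Fin s → (FreeGroup (Fin r) ⧸ Subgroup.normalClosure
        {g : FreeGroup (Fin r) | ∃ u ∈ W, ∃ φ : FreeGroup ℕ →* FreeGroup (Fin r), φ u = g}),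
        FreeGroup.lift f w ≠ 1) :
    ∀ (k : ℕ) (ws : Finset (FreeGroup (Fin r ⊕ Fin k))) (s : ℕ) (hs : r ≤ s),
      (∃ x : Fin k → (FreeGroup (Fin s) ⧸ Subgroup.normalClosure
          {g : FreeGroup (Fin s) | ∃ u ∈ W, ∃ φ : FreeGroup ℕ →* FreeGroup (Fin s), φ u = g}),
        ∀ w ∈ ws, FreeGroup.lift
          (Sum.elim
            (fun j : Fin r => (QuotientGroup.mk (FreeGroup.of (Fin.castLE hs j)) :
              FreeGroup (Fin s) ⧸ Subgroup.normalClosure
                {g : FreeGroup (Fin s) | ∃ u ∈ W, ∃ φ : FreeGroup ℕ →* FreeGroup (Fin s), φ u = g}))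
            x) w ≠ 1) →
      ∃ y : Fin k → (FreeGroup (Fin r) ⧸ Subgroup.normalClosure
          {g : FreeGroup (Fin r) | ∃ u ∈ W, ∃ φ : FreeGroup ℕ →* FreeGroup (Fin r), φ u = g}),
        ∀ w ∈ ws, FreeGroup.lift
          (Sum.elim
            (fun j : Fin r => (QuotientGroup.mk (FreeGroup.of j) :
              FreeGroup (Fin r) ⧸ Subgroup.normalClosure
                {g : FreeGroup (Fin r) | ∃ u ∈ W, ∃ φ : FreeGroup ℕ →* FreeGroup (Fin r), φ u = g}))
            y) w ≠ 1 := by
  classical
  intro k ws s hs hx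
  obtain ⟨x, hx⟩ := hx
  refine strong (fun j : Fin r => (QuotientGroup.mk (FreeGroup.of j) :
    FreeGroup (Fin r) ⧸ Verb W r)) hres ws ?_
  intro w hw
  -- the constant-free word
  let e : (Fin r ⊕ Fin k) ≃ Fin (r + k) := finSumFinEquiv
  have hwV : FreeGroup.map e w ∉ Verb W (r + k) := by
    intro hwV
    refine hx w hw ?_
    have h1 := lift_eq_one W (r + k) s (fun i => Sum.elim
            (fun j : Fin r => (QuotientGroup.mk (FreeGroup.of (Fin.castLE hs j)) :
              FreeGroup (Fin s) ⧸ Verb W s)) x (e.symm i)) _ hwV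
    rw [← h1, lift_map]
    congr 2
    funext i
    simp
  obtain ⟨f, hf⟩ := hgen (r + k) _ hwV
  have hf' : ∀ w' ∈ ({w} : Finset (FreeGroup (Fin r ⊕ Fin k))), FreeGroup.lift
      (Sum.elim (fun j : Fin r => f (e (Sum.inl j))) (fun i : Fin k => f (e (Sum.inr i)))) w' ≠ 1 := by
    intro w' hw' hcon
    rw [Finset.mem_singleton] at hw'
    subst hw'
    refine hf ?_
    rw [← hcon, lift_map]
    congr 2
    funext i
    rcases i with j | i <;> rfl
  obtain ⟨z, hz⟩ := core (fun j : Fin r => (QuotientGroup.mk (FreeGroup.of j) :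
    FreeGroup (Fin r) ⧸ Verb W r)) (closure_gen W r) (exists_endo W r) hres {w} _ _ hf'
  exact ⟨z, hz w (Finset.mem_singleton_self w)⟩

end Pool.Agent.Results.MP_41f637_al.ResidualPrimes
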